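import Mathlib

namespace Pool.Agent.MP_fafee5_lc.H68

/-- The topology of pointwise convergence on the monoid of all self-maps of `Ω`:
the product topology, with `Ω` discrete. -/
@[reducible] def pw (Ω : Type) : TopologicalSpace (Function.End Ω) :=
  @Pi.topologicalSpace Ω (fun _ => Ω) (fun _ => ⊥)

/-- The subspace topology on a submonoid. -/
@[reducible] def sub {Ω : Type} (S : Submonoid (Function.End Ω)) : TopologicalSpace S :=
  TopologicalSpace.induced Subtype.val (pw Ω)

/-- Membership in the class of closed submonoids. -/
def InM {Ω : Type} (S : Submonoid (Function.End Ω)) : Prop :=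
  @IsClosed (Function.End Ω) (pw Ω) (S : Set (Function.End Ω))

/-- Automatic continuity with respect to closed submonoids. -/
def AutoCont {Ω : Type} (S : Submonoid (Function.End Ω)) : Prop :=
  ∀ T : Submonoid (Function.End Ω), InM T →
    ∀ φ : S →ₙ* T, @Continuous S T (sub S) (sub T) φ

/-- Automatic homeomorphicity with respect to closed submonoids. -/
def AutoHomeo {Ω : Type} (S : Submonoid (Function.End Ω)) : Prop :=
  ∀ T : Submonoid (Function.End Ω), InM T →
    ∀ φ : S ≃* T, @IsHomeomorph S T (sub S) (sub T) φ

/-- The group of invertible elements has finitely many orbits on `n`-tuples, for all `n ≥ 1`. -/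
def Oligomorphic {Ω : Type} (S : Submonoid (Function.End Ω)) : Prop :=
  ∀ n : ℕ, 1 ≤ n → Finite (MulAction.orbitRel.Quotient Sˣ (Fin n → Ω))

end Pool.Agent.MP_fafee5_lc.H68
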