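import Pool.Agent.MP_fafee5_lc.H68.Minimal

namespace Pool.Agent.MP_fafee5_lc.H68

open Filter Topology

section
variable {Ω : Type} (e : Ω ≃ ℕ∞)

/-- left regular action of `(ℕ∞, min)` -/
noncomputable def sig (a : ℕ∞) : Function.End Ω := fun x => e.symm (min a (e x))

/-- the action with the top point fixed -/
noncomputable def tau (a : ℕ∞) : Function.End Ω :=
  fun x => if e x = ⊤ then x else e.symm (min a (e x))

theorem sig_top : sig e ⊤ = 1 := by
  funext x; change _ = x; simp [sig]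

theorem sig_mul (a b : ℕ∞) : sig e a * sig e b = sig e (min a b) := by
  funext x
  change sig e a (sig e b x) = _
  simp [sig, min_assoc]

theorem tau_top : tau e ⊤ = 1 := by
  funext x; change _ = x; simp [tau]

theorem tau_mul (a b : ℕ∞) : tau e a * tau e b = tau e (min a b) := by
  funext x
  change tau e a (tau e b x) = _
  by_cases h : e x = ⊤
  · simp [tau, h]
  · simp [tau, h, min_assoc]

theorem sig_at (a : ℕ∞) : e (sig e a (e.symm ⊤)) = a := by simp [sig]

theorem tau_inj : Function.Injective (tau e) := by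
  have key : ∀ a b : ℕ∞, a < b → tau e a ≠ tau e b := by
    intro a b hab h
    obtain ⟨n, rfl⟩ := ENat.ne_top_iff_exists.1 hab.ne_top
    have h1 := congrFun h (e.symm ((n + 1 : ℕ) : ℕ∞))
    have hb : ((n + 1 : ℕ) : ℕ∞) ≤ b := by
      rw [Nat.cast_succ]; exact Order.add_one_le_of_lt hab
    have hn : (n : ℕ∞) ≤ ((n + 1 : ℕ) : ℕ∞) := by exact_mod_cast Nat.le_succ n
    simp only [tau, Equiv.apply_symm_apply, ENat.natCast_ne_top, if_false, min_eq_left hn,
      min_eq_right hb, EmbeddingLike.apply_eq_iff_eq, Nat.cast_inj] at h1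
    omega
  intro a b h
  rcases lt_trichotomy a b with h1 | h1 | h1
  · exact absurd h (key a b h1)
  · exact h1
  · exact absurd h.symm (key b a h1)

/-- the discrete copy -/
def SS : Submonoid (Function.End Ω) where
  carrier := Set.range (sig e)
  one_mem' := ⟨⊤, sig_top e⟩
  mul_mem' := by
    rintro _ _ ⟨a, rfl⟩ ⟨b, rfl⟩
    exact ⟨min a b, (sig_mul e a b).symm⟩

/-- the compact copy -/
def TT : Submonoid (Function.End Ω) where
  carrier := Set.range (tau e)
  one_mem' := ⟨⊤, tau_top e⟩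
  mul_mem' := by
    rintro _ _ ⟨a, rfl⟩ ⟨b, rfl⟩
    exact ⟨min a b, (tau_mul e a b).symm⟩

end

theorem inM_of_approx {Ω : Type} {S : Submonoid (Function.End Ω)}
    (h : ∀ f : Function.End Ω, (∀ F : Finset Ω, ∃ g ∈ S, ∀ i ∈ F, g i = f i) → f ∈ S) :
    InM S := by
  letI := pw Ω
  refine isClosed_iff_nhds.2 fun f hf => h f fun F => ?_
  have : ∀ᶠ g in 𝓝 f, ∀ i ∈ F, g i = f i :=
    (eventually_all_finset F).2 fun i _ => agree_mem_nhds_pw f i
  obtain ⟨g, hg1, hg2⟩ := hf _ this
  exact ⟨g, hg2, hg1⟩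

variable {Ω : Type} (e : Ω ≃ ℕ∞)

theorem inM_SS : InM (SS e) := by
  classical
  refine inM_of_approx fun f hf => ⟨e (f (e.symm ⊤)), funext fun x => ?_⟩
  obtain ⟨_, ⟨a, rfl⟩, hg⟩ := hf {x, e.symm ⊤}
  have h1 := hg x (by simp)
  have h2 := hg (e.symm ⊤) (by simp)
  rw [← h2, sig_at, h1]

theorem inM_TT : InM (TT e) := by
  classical
  refine inM_of_approx fun f hf => ?_
  by_cases h : ∀ x, f x = x
  · exact ⟨⊤, (tau_top e).trans (funext fun x => (h x).symm)⟩
  · push Not at h
    obtain ⟨y, hy⟩ := h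
    refine ⟨e (f y), funext fun x => ?_⟩
    obtain ⟨_, ⟨a, rfl⟩, hg⟩ := hf {x, y}
    have h1 := hg x (by simp)
    have h2 := hg y (by simp)
    have h3 : e (f y) = a := by
      rw [← h2] at hy ⊢
      by_cases ht : e y = ⊤
      · simp [tau, ht] at hy
      · simp only [tau, ht, if_false, Equiv.apply_symm_apply] at hy ⊢
        rcases min_choice a (e y) with h | h
        · exact h
        · rw [h] at hy; simp at hy
    rw [h3, h1]

theorem SS_eq (s : SS e) : s.1 = sig e (e (s.1 (e.symm ⊤))) := by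
  obtain ⟨_, a, rfl⟩ := s
  simp only [sig_at]

theorem discrete_SS : @DiscreteTopology (SS e) (sub (SS e)) := by
  letI := sub (SS e)
  refine discreteTopology_iff_isOpen_singleton.2 fun s => isOpen_iff_mem_nhds.2 fun u hu => ?_
  rw [Set.mem_singleton_iff] at hu
  subst hu
  refine mem_of_superset (agree_mem_nhds_sub u (e.symm ⊤)) fun v hv => ?_
  have hv' : v.1 (e.symm ⊤) = u.1 (e.symm ⊤) := hv
  refine Subtype.ext ?_
  rw [SS_eq e v, SS_eq e u, hv']

theorem autoCont_SS : AutoCont (SS e) := by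
  intro T _ φ
  letI := sub (SS e)
  letI := sub T
  haveI := discrete_SS e
  exact continuous_of_discreteTopology

/-- the algebraic isomorphism, as a homomorphism -/
noncomputable def hom : SS e →ₙ* TT e where
  toFun s := ⟨tau e (e (s.1 (e.symm ⊤))), _, rfl⟩
  map_mul' := by
    rintro ⟨_, a, rfl⟩ ⟨_, b, rfl⟩
    refine Subtype.ext ?_
    change tau e (e ((sig e a * sig e b) (e.symm ⊤))) =
      tau e (e (sig e a (e.symm ⊤))) * tau e (e (sig e b (e.symm ⊤)))
    rw [sig_mul, sig_at, sig_at, sig_at, tau_mul]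

theorem hom_sig (a : ℕ∞) : hom e ⟨sig e a, a, rfl⟩ = ⟨tau e a, a, rfl⟩ := by
  refine Subtype.ext ?_
  change tau e (e (sig e a (e.symm ⊤))) = tau e a
  rw [sig_at]

theorem hom_bij : Function.Bijective (hom e) := by
  constructor
  · rintro ⟨_, a, rfl⟩ ⟨_, b, rfl⟩ h
    rw [hom_sig, hom_sig] at h
    have : a = b := tau_inj e (congrArg Subtype.val h)
    subst this
    rfl
  · rintro ⟨_, a, rfl⟩
    exact ⟨_, hom_sig e a⟩

theorem not_autoHomeo_SS : ¬ AutoHomeo (SS e) := by
  intro h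
  letI := sub (SS e)
  letI := sub (TT e)
  haveI := discrete_SS e
  have h1 := h (TT e) (inM_TT e) (MulEquiv.ofBijective (hom e) (hom_bij e))
  have h2 := h1.isOpenMap {⟨sig e ⊤, ⊤, rfl⟩} (isOpen_discrete _)
  rw [Set.image_singleton] at h2
  have h3 : (MulEquiv.ofBijective (hom e) (hom_bij e)) ⟨sig e ⊤, ⊤, rfl⟩ = ⟨tau e ⊤, ⊤, rfl⟩ :=
    hom_sig e ⊤
  rw [h3] at h2
  obtain ⟨F, hF⟩ := mem_nhds_sub (h2.mem_nhds rfl)
  have h4 := hF ⟨tau e ((F.sup fun x => (e x).toNat : ℕ) : ℕ∞), _, rfl⟩ (by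
    intro i hi
    by_cases ht : e i = ⊤
    · simp [tau, ht]
    · have hle : e i ≤ ((F.sup fun x => (e x).toNat : ℕ) : ℕ∞) := by
        rw [← ENat.natCast_toNat ht]
        exact_mod_cast Finset.le_sup (f := fun x => (e x).toNat) hi
      simp [tau, ht, min_eq_right hle])
  have h5 := tau_inj e (congrArg Subtype.val h4)
  exact ENat.natCast_ne_top _ h5

end Pool.Agent.MP_fafee5_lc.H68
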