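import Pool.Agent.MP_fafee5_lc.H68.Defs

namespace Pool.Agent.MP_fafee5_lc.H68

open Filter Topology

/-- One orbit of `n`-tuples is large for the ultrafilter. -/
theorem orbit_large {Ω G I : Type} [Group G] [MulAction G Ω]
    (hG : ∀ n : ℕ, 1 ≤ n → Finite (MulAction.orbitRel.Quotient G (Fin n → Ω)))
    (U : Ultrafilter (I → Ω)) (a : ℕ → I) (k : ℕ) :
    ∃ A ∈ U, ∀ x ∈ A, ∀ y ∈ A, ∃ g : G, ∀ j < k + 1, g • x (a j) = y (a j) := by
  haveI := hG (k + 1) (by omega)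
  let q : (I → Ω) → MulAction.orbitRel.Quotient G (Fin (k + 1) → Ω) :=
    fun x => Quotient.mk'' (fun j : Fin (k + 1) => x (a j))
  obtain ⟨o, ho⟩ := (U.map q).eq_pure_of_finite
  have hA : q ⁻¹' {o} ∈ U := by
    have : ({o} : Set _) ∈ U.map q := by rw [ho]; simp
    exact this
  refine ⟨q ⁻¹' {o}, hA, fun x hx y hy => ?_⟩
  have hxy : q y = q x := by
    rw [Set.mem_preimage, Set.mem_singleton_iff] at hx hy
    rw [hx, hy]
  have h2 := Quotient.exact' hxy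
  rw [MulAction.orbitRel_apply] at h2
  obtain ⟨g, hg⟩ := h2
  refine ⟨g, fun j hj => ?_⟩
  have := congrFun hg ⟨j, hj⟩
  simpa using this

/-- Compactness modulo the group action. -/
theorem compact_mod {Ω G I : Type} [Group G] [MulAction G Ω] [Countable I] [Nonempty I]
    (hG : ∀ n : ℕ, 1 ≤ n → Finite (MulAction.orbitRel.Quotient G (Fin n → Ω)))
    (U : Ultrafilter (I → Ω)) :
    ∃ t : I → Ω, ∀ F : Finset I, {x | ∃ g : G, ∀ i ∈ F, g • x i = t i} ∈ U := by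
  obtain ⟨a, ha⟩ := exists_surjective_nat I
  let P : ℕ → (I → Ω) → Prop := fun k y => {x | ∃ g : G, ∀ j < k, g • x (a j) = y (a j)} ∈ U
  have step : ∀ k y, P k y → ∃ y', P (k + 1) y' ∧ ∀ j < k, y' (a j) = y (a j) := by
    intro k y hy
    obtain ⟨A, hA, hAA⟩ := orbit_large hG U a k
    obtain ⟨x0, ⟨g0, hg0⟩, hx0A⟩ := U.nonempty_of_mem (inter_mem hy hA)
    refine ⟨fun i => g0 • x0 i, ?_, fun j hj => hg0 j hj⟩
    refine mem_of_superset hA fun x hx => ?_
    obtain ⟨g, hg⟩ := hAA x hx x0 hx0A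
    exact ⟨g0 * g, fun j hj => by rw [mul_smul, hg j hj]⟩
  obtain ⟨y0, -⟩ := U.nonempty_of_mem (univ_mem : Set.univ ∈ (U : Filter (I → Ω)))
  have h0 : P 0 y0 := by
    refine mem_of_superset univ_mem fun x _ => ⟨1, fun j hj => by omega⟩
  choose nxt hP hagree using step
  let Y : (k : ℕ) → {y : I → Ω // P k y} := fun k =>
    Nat.rec ⟨y0, h0⟩ (fun k y => ⟨nxt k y.1 y.2, hP k y.1 y.2⟩) k
  have hY : ∀ k j, j < k → (Y (k + 1)).1 (a j) = (Y k).1 (a j) :=
    fun k j hj => hagree k (Y k).1 (Y k).2 j hj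
  have hstab : ∀ j m, j + 1 ≤ m → (Y m).1 (a j) = (Y (j + 1)).1 (a j) := by
    intro j m hm
    induction m, hm using Nat.le_induction with
    | base => rfl
    | succ m hm ih => rw [hY m j (by omega), ih]
  choose b hb using ha
  refine ⟨fun i => (Y (b i + 1)).1 i, fun F => ?_⟩
  refine mem_of_superset (Y (F.sup b + 1)).2 ?_
  rintro x ⟨g, hg⟩
  refine ⟨g, fun i hi => ?_⟩
  have hle : b i ≤ F.sup b := Finset.le_sup hi
  have h1 := hg (b i) (by omega)
  have h2 := hstab (b i) (F.sup b + 1) (by omega)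
  rw [hb] at h1 h2
  rw [h1, h2]

theorem mem_nhds_pw {Ω : Type} {f : Function.End Ω} {V : Set (Function.End Ω)}
    (hV : V ∈ @nhds _ (pw Ω) f) :
    ∃ F : Finset Ω, ∀ g : Function.End Ω, (∀ i ∈ F, g i = f i) → g ∈ V := by
  letI : TopologicalSpace Ω := ⊥
  haveI : DiscreteTopology Ω := ⟨rfl⟩
  have hV' : (V : Set (Ω → Ω)) ∈ @nhds (Ω → Ω) _ f := hV
  rw [nhds_pi] at hV'
  obtain ⟨J, hJ, t, ht, hsub⟩ := Filter.mem_pi.1 hV'
  refine ⟨hJ.toFinset, fun g hg => hsub fun i hi => ?_⟩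
  have := hg i (by simpa using hi)
  rw [this]
  exact mem_of_mem_nhds (ht i)

theorem agree_mem_nhds_pw {Ω : Type} (f : Function.End Ω) (c : Ω) :
    {g : Function.End Ω | g c = f c} ∈ @nhds _ (pw Ω) f := by
  letI : TopologicalSpace Ω := ⊥
  haveI : DiscreteTopology Ω := ⟨rfl⟩
  have : {g : Ω → Ω | g c = f c} ∈ @nhds (Ω → Ω) _ f := by
    have hc : Continuous (fun g : Ω → Ω => g c) := continuous_apply c
    exact (IsOpen.preimage hc (isOpen_discrete {f c})).mem_nhds rfl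
  exact this

theorem mem_of_approx {Ω : Type} {S : Submonoid (Function.End Ω)} (hS : InM S)
    (f : Function.End Ω) (h : ∀ F : Finset Ω, ∃ g ∈ S, ∀ i ∈ F, g i = f i) : f ∈ S := by
  by_contra hf
  letI := pw Ω
  have hc : IsClosed (S : Set (Function.End Ω)) := hS
  obtain ⟨F, hF⟩ := mem_nhds_pw (hc.isOpen_compl.mem_nhds hf)
  obtain ⟨g, hgS, hg⟩ := h F
  exact hF g hg hgS

theorem mem_nhds_sub {Ω : Type} {S : Submonoid (Function.End Ω)} {f : S} {V : Set S}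
    (hV : V ∈ @nhds _ (sub S) f) :
    ∃ F : Finset Ω, ∀ g : S, (∀ i ∈ F, g.1 i = f.1 i) → g ∈ V := by
  letI := pw Ω
  rw [sub, nhds_induced, mem_comap] at hV
  obtain ⟨W, hW, hsub⟩ := hV
  obtain ⟨F, hF⟩ := mem_nhds_pw hW
  exact ⟨F, fun g hg => hsub (hF g.1 hg)⟩

/-- Main lemma: a continuous injective homomorphism from an oligomorphic closed monoid into a
Hausdorff topological semigroup detects the value at every point. -/
theorem agree_mem_comap {Ω : Type} [Countable Ω] {S : Submonoid (Function.End Ω)} (hS : InM S)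
    (hO : Oligomorphic S) {N : Type*} [Mul N] [TopologicalSpace N] [T2Space N] [ContinuousMul N]
    (φ : S →ₙ* N) (hinj : Function.Injective φ) (hφ : @Continuous S N (sub S) _ φ)
    (s : S) (c : Ω) : {u : S | u.1 c = s.1 c} ∈ comap φ (𝓝 (φ s)) := by
  classical
  by_contra hcon
  haveI : Nonempty Ω := ⟨c⟩
  have hne : (comap φ (𝓝 (φ s)) ⊓ 𝓟 {u : S | u.1 c = s.1 c}ᶜ).NeBot := by
    rw [Filter.neBot_iff, Ne, Filter.inf_principal_eq_bot, compl_compl]
    exact hcon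
  obtain ⟨U, hU⟩ := Ultrafilter.exists_le (comap φ (𝓝 (φ s)) ⊓ 𝓟 {u : S | u.1 c = s.1 c}ᶜ)
  have hU1 : (U : Filter S) ≤ comap φ (𝓝 (φ s)) := hU.trans inf_le_left
  have hU2 : {u : S | u.1 c = s.1 c}ᶜ ∈ U := le_principal_iff.1 (hU.trans inf_le_right)
  obtain ⟨t, ht⟩ := compact_mod (I := Ω ⊕ Ω) hO (U.map fun u : S => Sum.elim u.1 id)
  -- unpack
  have ht' : ∀ F₁ F₂ : Finset Ω, ∀ A ∈ U, ∃ u ∈ A, ∃ g : Sˣ,
      (∀ i ∈ F₁, ((g : S) * u).1 i = t (Sum.inl i)) ∧ ∀ i ∈ F₂, (g : S).1 i = t (Sum.inr i) := by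
    intro F₁ F₂ A hA
    have h1 := ht (F₁.disjSum F₂)
    rw [Ultrafilter.mem_map] at h1
    obtain ⟨u, huA, g, hg⟩ := U.nonempty_of_mem (inter_mem hA h1)
    refine ⟨u, huA, g, fun i hi => ?_, fun i hi => ?_⟩
    · exact hg (Sum.inl i) (by simpa using hi)
    · exact hg (Sum.inr i) (by simpa using hi)
  have hσ : (fun i => t (Sum.inl i) : Function.End Ω) ∈ S := by
    refine mem_of_approx hS _ fun F => ?_
    obtain ⟨u, -, g, h1, -⟩ := ht' F ∅ Set.univ univ_mem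
    exact ⟨_, ((g : S) * u).2, h1⟩
  have he : (fun i => t (Sum.inr i) : Function.End Ω) ∈ S := by
    refine mem_of_approx hS _ fun F => ?_
    obtain ⟨u, -, g, -, h2⟩ := ht' ∅ F Set.univ univ_mem
    exact ⟨_, (g : S).2, h2⟩
  set σ : S := ⟨_, hσ⟩ with hσdef
  set e : S := ⟨_, he⟩ with hedef
  have heq : φ σ = φ e * φ s := by
    by_contra hne'
    obtain ⟨W₁, W₂, hW₁, hW₂, hm₁, hm₂, hdisj⟩ := t2_separation hne'
    have hmul : (fun p : N × N => p.1 * p.2) ⁻¹' W₂ ∈ 𝓝 (φ e, φ s) :=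
      continuous_mul.continuousAt.preimage_mem_nhds (hW₂.mem_nhds hm₂)
    rw [nhds_prod_eq, mem_prod_iff] at hmul
    obtain ⟨V₁, hV₁, V₂, hV₂, hV⟩ := hmul
    letI := sub S
    obtain ⟨F₁, hF₁⟩ := mem_nhds_sub (hφ.continuousAt.preimage_mem_nhds (hW₁.mem_nhds hm₁))
    obtain ⟨F₂, hF₂⟩ := mem_nhds_sub (hφ.continuousAt.preimage_mem_nhds hV₁)
    obtain ⟨u, hu, g, h1, h2⟩ := ht' F₁ F₂ (φ ⁻¹' V₂) (hU1 (preimage_mem_comap hV₂))
    have a1 : φ ((g : S) * u) ∈ W₁ := hF₁ _ h1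
    have a2 : φ (g : S) * φ u ∈ W₂ := hV (Set.mk_mem_prod (hF₂ _ h2) hu)
    rw [← map_mul] at a2
    exact Set.disjoint_left.1 hdisj a1 a2
  rw [← map_mul] at heq
  have heq' := hinj heq
  obtain ⟨u, hu, g, h1, h2⟩ := ht' {c} {s.1 c} _ hU2
  have b1 : (g : S).1 (u.1 c) = t (Sum.inl c) := h1 c (by simp)
  have b2 : (g : S).1 (s.1 c) = t (Sum.inr (s.1 c)) := h2 _ (by simp)
  have b3 : t (Sum.inl c) = t (Sum.inr (s.1 c)) := congrFun (congrArg Subtype.val heq') c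
  have b4 : g • u.1 c = g • s.1 c := by
    change (g : S).1 (u.1 c) = (g : S).1 (s.1 c)
    rw [b1, b2, b3]
  exact hu (MulAction.injective g b4)

theorem t2_sub {Ω : Type} (T : Submonoid (Function.End Ω)) : @T2Space T (sub T) := by
  letI : TopologicalSpace Ω := ⊥
  haveI : DiscreteTopology Ω := ⟨rfl⟩
  letI := pw Ω
  haveI : T2Space (Function.End Ω) := inferInstanceAs (T2Space (Ω → Ω))
  exact inferInstanceAs (T2Space {x // x ∈ T})

theorem continuous_to_sub {Ω X : Type} [TopologicalSpace X] {T : Submonoid (Function.End Ω)}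
    (f : X → T) (h : ∀ x c, {y | (f y).1 c = (f x).1 c} ∈ 𝓝 x) :
    @Continuous X T _ (sub T) f := by
  letI := sub T
  rw [continuous_iff_continuousAt]
  intro x V hV
  obtain ⟨F, hF⟩ := mem_nhds_sub hV
  have : ∀ᶠ y in 𝓝 x, ∀ i ∈ F, (f y).1 i = (f x).1 i :=
    (eventually_all_finset F).2 fun i _ => h x i
  exact mem_map.2 (this.mono fun y hy => hF _ hy)

theorem agree_mem_nhds_sub {Ω : Type} {T : Submonoid (Function.End Ω)} (f : T) (c : Ω) :
    {g : T | g.1 c = f.1 c} ∈ @nhds _ (sub T) f := by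
  letI := pw Ω
  rw [sub, nhds_induced]
  exact preimage_mem_comap (agree_mem_nhds_pw f.1 c)

theorem continuousMul_sub {Ω : Type} (T : Submonoid (Function.End Ω)) :
    @ContinuousMul T (sub T) _ := by
  letI := sub T
  refine ⟨continuous_to_sub _ fun p c => ?_⟩
  rw [nhds_prod_eq]
  refine mem_of_superset
    (prod_mem_prod (agree_mem_nhds_sub p.1 (p.2.1 c)) (agree_mem_nhds_sub p.2 c)) ?_
  rintro q ⟨h1, h2⟩
  change q.1.1 (q.2.1 c) = p.1.1 (p.2.1 c)
  rw [h2]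
  exact h1

theorem autoHomeo_of_autoCont {Ω : Type} [Countable Ω] {S : Submonoid (Function.End Ω)}
    (hS : InM S) (hO : Oligomorphic S) (hC : AutoCont S) : AutoHomeo S := by
  intro T hT φ
  letI := sub S
  letI := sub T
  haveI := t2_sub T
  haveI := continuousMul_sub T
  have h1 : Continuous φ := hC T hT (φ : S →ₙ* T)
  have h2 : Continuous φ.symm := by
    refine continuous_to_sub _ fun x c => ?_
    have := agree_mem_comap hS hO (φ : S →ₙ* T) φ.injective h1 (φ.symm x) c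
    obtain ⟨V, hV, hsub⟩ := this
    have hx : (φ : S →ₙ* T) (φ.symm x) = x := φ.apply_symm_apply x
    rw [hx] at hV
    refine mem_of_superset hV fun y hy => hsub ?_
    change (φ : S →ₙ* T) (φ.symm y) ∈ V
    have hy' : (φ : S →ₙ* T) (φ.symm y) = y := φ.apply_symm_apply y
    rwa [hy']
  exact (Homeomorph.mk φ.toEquiv h1 h2).isHomeomorph

end Pool.Agent.MP_fafee5_lc.H68
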